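import Mathlib

set_option autoImplicit false

open scoped NNReal ENNReal
open MeasureTheory Set Filter Topology

namespace Pool.Agent.Gauge

/-- ternary coding of 0-1 sequences -/
noncomputable def phi (x : ℕ → Bool) : ℝ := Cardinal.cantorFunction (1/3) x

theorem phi_succ (x : ℕ → Bool) :
    phi x = cond (x 0) 1 0 + (1/3) * phi (fun n => x (n + 1)) :=
  Cardinal.cantorFunction_succ x (by norm_num) (by norm_num)

theorem phi_nonneg (x : ℕ → Bool) : 0 ≤ phi x :=
  tsum_nonneg fun _ => Cardinal.cantorFunctionAux_nonneg (by norm_num)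

theorem phi_le (x : ℕ → Bool) : phi x ≤ 3/2 := by
  have h1 : phi x ≤ phi (fun _ => true) :=
    Cardinal.cantorFunction_le (by norm_num) (by norm_num) (by simp)
  have h2 := phi_succ (fun _ => true)
  simp only [cond_true] at h2
  linarith

theorem phi_close (k : ℕ) : ∀ x y : ℕ → Bool, (∀ i < k, x i = y i) →
    |phi x - phi y| ≤ (3/2) * (1/3) ^ k := by
  induction k with
  | zero =>
    intro x y _
    have := phi_nonneg x; have := phi_nonneg y
    have := phi_le x; have := phi_le y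
    rw [abs_le]; constructor <;> norm_num <;> linarith
  | succ k ih =>
    intro x y h
    have := ih (fun n => x (n + 1)) (fun n => y (n + 1)) (fun i hi => h (i + 1) (by omega))
    rw [phi_succ x, phi_succ y, h 0 (by omega)]
    have e : (cond (y 0) 1 0 + (1/3) * phi (fun n => x (n + 1)) -
      (cond (y 0) 1 0 + (1/3) * phi (fun n => y (n + 1))) : ℝ) =
      (1/3) * (phi (fun n => x (n + 1)) - phi (fun n => y (n + 1))) := by ring
    rw [e, abs_mul, abs_of_pos (by norm_num : (0:ℝ) < 1/3), pow_succ]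
    linarith

theorem phi_gap (k : ℕ) : ∀ x y : ℕ → Bool, x k ≠ y k →
    (1/2) * (1/3 : ℝ) ^ k ≤ |phi x - phi y| := by
  have base : ∀ x y : ℕ → Bool, x 0 ≠ y 0 → (1/2 : ℝ) ≤ |phi x - phi y| := by
    intro x y h
    rw [phi_succ x, phi_succ y]
    have := phi_nonneg (fun n => x (n + 1)); have := phi_nonneg (fun n => y (n + 1))
    have := phi_le (fun n => x (n + 1)); have := phi_le (fun n => y (n + 1))
    rw [le_abs]
    cases hx : x 0 <;> cases hy : y 0
    · exact absurd (hx.trans hy.symm) h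
    · right; simp only [cond_true, cond_false]; linarith
    · left; simp only [cond_true, cond_false]; linarith
    · exact absurd (hx.trans hy.symm) h
  induction k with
  | zero => intro x y h; simpa using base x y h
  | succ k ih =>
    intro x y h
    by_cases h0 : x 0 = y 0
    · have := ih (fun n => x (n + 1)) (fun n => y (n + 1)) h
      rw [phi_succ x, phi_succ y, h0]
      have e : (cond (y 0) 1 0 + (1/3) * phi (fun n => x (n + 1)) -
        (cond (y 0) 1 0 + (1/3) * phi (fun n => y (n + 1))) : ℝ) =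
        (1/3) * (phi (fun n => x (n + 1)) - phi (fun n => y (n + 1))) := by ring
      rw [e, abs_mul, abs_of_pos (by norm_num : (0:ℝ) < 1/3), pow_succ]
      linarith
    · refine le_trans ?_ (base x y h0)
      have : (1/3 : ℝ) ^ (k + 1) ≤ 1 := pow_le_one₀ (by norm_num) (by norm_num)
      linarith

/-- scales -/
noncomputable def rr (i : ℕ) : ℝ≥0 := (1/2) * (1/3) ^ i

theorem rr_anti : Antitone rr := by
  intro i j h
  unfold rr
  have h3 : (1/3 : ℝ≥0) ≤ 1 := by rw [div_le_one (by norm_num)]; norm_num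
  exact mul_le_mul_right (pow_le_pow_of_le_one (by positivity) h3 h) _

theorem rr_pos (i : ℕ) : 0 < rr i := by unfold rr; positivity

abbrev Idx (Z : Set ℕ) (t : ℝ≥0) := {s : Finset ℕ // ∀ i ∈ s, i ∈ Z ∧ t < rr i}

instance (Z : Set ℕ) (t : ℝ≥0) : Nonempty (Idx Z t) := ⟨⟨∅, by simp⟩⟩

/-- the gauge attached to `Z` -/
noncomputable def gz (Z : Set ℕ) (t : ℝ≥0) : ℝ≥0 := ⨅ s : Idx Z t, (1/2) ^ s.1.card

theorem gz_le (Z : Set ℕ) (t : ℝ≥0) (s : Finset ℕ) (hs : ∀ i ∈ s, i ∈ Z ∧ t < rr i) :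
    gz Z t ≤ (1/2) ^ s.card :=
  ciInf_le' (fun s : Idx Z t => ((1/2 : ℝ≥0)) ^ s.1.card) ⟨s, hs⟩

theorem gz_mono (Z : Set ℕ) : Monotone (gz Z) := by
  intro t t' h
  refine le_ciInf fun s => ?_
  exact gz_le Z t s.1 fun i hi => ⟨(s.2 i hi).1, lt_of_le_of_lt h (s.2 i hi).2⟩

theorem half_lt_one : (1/2 : ℝ≥0) < 1 := by
  rw [div_lt_one (by norm_num)]; norm_num

theorem gz_zero (Z : Set ℕ) (hZ : Z.Infinite) : gz Z 0 = 0 := by
  by_contra h
  have hpos : 0 < gz Z 0 := pos_iff_ne_zero.2 h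
  obtain ⟨n, hn⟩ := exists_pow_lt_of_lt_one hpos half_lt_one
  obtain ⟨s, hs, hsc⟩ := hZ.exists_subset_card_eq n
  have := gz_le Z 0 s (fun i hi => ⟨hs hi, rr_pos i⟩)
  rw [hsc] at this
  exact absurd this (not_le.2 hn)

theorem gz_pos (Z : Set ℕ) (t : ℝ≥0) (ht : 0 < t) : 0 < gz Z t := by
  have : ∃ k, rr k < t := by
    have h3 : (1/3 : ℝ≥0) < 1 := by rw [div_lt_one (by norm_num)]; norm_num
    obtain ⟨k, hk⟩ := exists_pow_lt_of_lt_one ht h3
    refine ⟨k, lt_of_le_of_lt ?_ hk⟩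
    unfold rr
    calc (1/2 : ℝ≥0) * (1/3) ^ k ≤ 1 * (1/3) ^ k := by gcongr; exact half_lt_one.le
      _ = _ := one_mul _
  obtain ⟨k, hk⟩ := this
  have hb : (1/2 : ℝ≥0) ^ k ≤ gz Z t := by
    refine le_ciInf fun s => ?_
    refine pow_le_pow_of_le_one (by simp) half_lt_one.le ?_
    have : s.1 ⊆ Finset.range k := by
      intro i hi
      rw [Finset.mem_range]
      by_contra hc
      have h1 := rr_anti (not_lt.1 hc)
      have h2 := (s.2 i hi).2
      exact absurd (lt_of_lt_of_le h2 h1) (not_lt.2 hk.le)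
    simpa using Finset.card_le_card this
  exact lt_of_lt_of_le (by positivity) hb

theorem gz_rcont (Z : Set ℕ) (x : ℝ≥0) : ContinuousWithinAt (gz Z) (Ici x) x := by
  refine tendsto_order.2 ⟨fun a ha => ?_, fun b hb => ?_⟩
  · filter_upwards [self_mem_nhdsWithin] with t ht
    exact lt_of_lt_of_le ha (gz_mono Z ht)
  · obtain ⟨s, hs⟩ := exists_lt_of_ciInf_lt hb
    have h1 : ∀ᶠ t in 𝓝[Ici x] x, ∀ i ∈ s.1, t < rr i := by
      rw [Finset.eventually_all]
      intro i hi
      exact mem_nhdsWithin_of_mem_nhds (Iio_mem_nhds (s.2 i hi).2)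
    filter_upwards [h1] with t ht
    exact lt_of_le_of_lt (gz_le Z t s.1 fun i hi => ⟨(s.2 i hi).1, ht i hi⟩) hs

/-- coin tossing -/
noncomputable def coin : Measure Bool := (PMF.uniformOfFintype Bool).toMeasure

instance : IsProbabilityMeasure coin := by unfold coin; infer_instance

theorem coin_singleton (b : Bool) : coin {b} = 2⁻¹ := by
  unfold coin
  rw [PMF.toMeasure_apply_singleton _ _ (MeasurableSet.singleton b)]
  simp

noncomputable def PP : Measure (ℕ → Bool) := Measure.infinitePi (fun _ : ℕ => coin)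

instance : IsProbabilityMeasure PP := by unfold PP; infer_instance

theorem PP_cyl (s : Finset ℕ) (y : ℕ → Bool) : PP {x | ∀ i ∈ s, x i = y i} = 2⁻¹ ^ s.card := by
  have : {x : ℕ → Bool | ∀ i ∈ s, x i = y i} = Set.pi (s : Set ℕ) (fun i => {y i}) := by
    ext x; simp
  rw [this]
  unfold PP
  rw [Measure.infinitePi_pi _ (fun i _ => MeasurableSet.singleton _)]
  simp [coin_singleton]

open Classical in
/-- parametrization of the compact set attached to `Z` -/
noncomputable def gg (Z : Set ℕ) (x : ℕ → Bool) : ℝ := phi (fun i => x i && decide (i ∈ Z))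

theorem lower (Z : Set ℕ) (U : Set ℝ) (hU : Metric.ediam U ≤ 1) :
    PP ((gg Z) ⁻¹' U) ≤ ((gz Z (Metric.ediam U).toNNReal : ℝ≥0) : ℝ≥0∞) := by
  classical
  by_cases hne : ((gg Z) ⁻¹' U).Nonempty
  · obtain ⟨y, hy⟩ := hne
    have hfin : Metric.ediam U ≠ ∞ := ne_top_of_le_ne_top ENNReal.one_ne_top hU
    have hPfin : PP ((gg Z) ⁻¹' U) ≠ ∞ := measure_ne_top _ _
    rw [← ENNReal.coe_toNNReal hPfin]
    rw [ENNReal.coe_le_coe]
    refine le_ciInf fun s => ?_
    rw [← ENNReal.coe_le_coe, ENNReal.coe_toNNReal hPfin]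
    calc PP ((gg Z) ⁻¹' U) ≤ PP {x | ∀ i ∈ s.1, x i = y i} := by
          refine measure_mono ?_
          intro x hx i hi
          by_contra hxy
          obtain ⟨hiZ, hlt⟩ := s.2 i hi
          have hgap : (1/2) * (1/3 : ℝ) ^ i ≤ |gg Z x - gg Z y| := by
            refine phi_gap i _ _ ?_
            simpa [hiZ] using hxy
          have hd : dist (gg Z x) (gg Z y) ≤ (Metric.ediam U).toReal :=
            Metric.dist_le_diam_of_mem' hfin hx hy
          have hlt' : (Metric.ediam U).toReal < (1/2) * (1/3 : ℝ) ^ i := by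
            have h5 : ((Metric.ediam U).toNNReal : ℝ) < (rr i : ℝ) := NNReal.coe_lt_coe.2 hlt
            have h6 : (Metric.ediam U).toReal < (rr i : ℝ) := h5
            have h7 : (rr i : ℝ) = (1/2) * (1/3) ^ i := by simp [rr]
            rwa [h7] at h6
          rw [Real.dist_eq] at hd
          linarith
      _ = 2⁻¹ ^ s.1.card := PP_cyl _ _
      _ = _ := by simp [ENNReal.inv_pow]
  · rw [not_nonempty_iff_eq_empty.1 hne]; simp

theorem pos_part (Z : Set ℕ) (A : Set ℝ) (hA : range (gg Z) ⊆ A) :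
    0 < (OuterMeasure.mkMetric (fun r : ℝ≥0∞ => ((gz Z r.toNNReal : ℝ≥0) : ℝ≥0∞)) :
      OuterMeasure ℝ) A := by
  have h1 : OuterMeasure.map (gg Z) PP.toOuterMeasure ≤
      (OuterMeasure.mkMetric (fun r : ℝ≥0∞ => ((gz Z r.toNNReal : ℝ≥0) : ℝ≥0∞)) :
      OuterMeasure ℝ) := by
    refine OuterMeasure.le_mkMetric _ _ 1 one_pos ?_
    intro s hs
    rw [OuterMeasure.map_apply]
    exact lower Z s hs
  have h2 := h1 A
  rw [OuterMeasure.map_apply] at h2
  have h3 : (gg Z) ⁻¹' A = univ := by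
    ext x; simp only [mem_preimage, mem_univ, iff_true]; exact hA ⟨x, rfl⟩
  rw [h3] at h2
  refine lt_of_lt_of_le ?_ h2
  show 0 < PP univ
  simp

/-- block boundaries -/
def E (n : ℕ) : ℕ := 3 ^ n

theorem E_succ (n : ℕ) : E (n + 1) = 3 * E n := by unfold E; ring

theorem E_mono : Monotone E := fun _ _ h => Nat.pow_le_pow_right (by norm_num) h

theorem E_gt (n : ℕ) : n < E n := Nat.lt_pow_self (by norm_num)

/-- union of blocks -/
def ZZ (a : Set ℕ) : Set ℕ := {i | ∃ n ∈ a, E n ≤ i ∧ i < E (n + 1)}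

theorem ZZ_infinite (a : Set ℕ) (ha : a.Infinite) : (ZZ a).Infinite := by
  refine Set.infinite_of_not_bddAbove ?_
  rintro ⟨B, hB⟩
  obtain ⟨n, hn, hBn⟩ := ha.exists_gt B
  have : E n ∈ ZZ a := ⟨n, hn, le_rfl, by rw [E_succ]; have := E_gt n; omega⟩
  have h1 := hB this
  have := E_gt n
  omega

/-- sequences vanishing on the block `n` -/
def UU (n : ℕ) : Set ℝ := {z | ∃ u : ℕ → Bool, (∀ i, E n ≤ i → i < E (n + 1) → u i = false) ∧ z = phi u}

/-- the part with given beginning -/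
def CC (n : ℕ) (p : Fin (E n) → Bool) : Set ℝ :=
  {z | ∃ u : ℕ → Bool, (∀ i, E n ≤ i → i < E (n + 1) → u i = false) ∧
    (∀ i : Fin (E n), u i = p i) ∧ z = phi u}

theorem UU_sub (n : ℕ) : UU n ⊆ ⋃ p : Fin (E n) → Bool, CC n p := by
  rintro z ⟨u, hu, rfl⟩
  rw [mem_iUnion]
  exact ⟨fun i => u i, u, hu, fun i => rfl, rfl⟩

theorem CC_diam (n : ℕ) (p : Fin (E n) → Bool) :
    Metric.ediam (CC n p) ≤ ENNReal.ofReal ((3/2) * (1/3) ^ (E (n + 1))) := by
  refine Metric.ediam_le ?_
  rintro x ⟨u, hu, hup, rfl⟩ y ⟨v, hv, hvp, rfl⟩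
  rw [edist_dist, Real.dist_eq]
  refine ENNReal.ofReal_le_ofReal (phi_close _ _ _ ?_)
  intro i hi
  by_cases h : i < E n
  · rw [hup ⟨i, h⟩, hvp ⟨i, h⟩]
  · rw [hu i (not_lt.1 h) hi, hv i (not_lt.1 h) hi]

theorem gz_CC (a : Set ℕ) (n : ℕ) (hn : n ∈ a) (p : Fin (E n) → Bool) :
    gz (ZZ a) (Metric.ediam (CC n p)).toNNReal ≤ (1/2) ^ (2 * E n - 1) := by
  have h := gz_le (ZZ a) (Metric.ediam (CC n p)).toNNReal (Finset.Ico (E n) (3 * E n - 1)) ?_
  · have : (Finset.Ico (E n) (3 * E n - 1)).card = 2 * E n - 1 := by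
      rw [Nat.card_Ico]; omega
    rwa [this] at h
  · intro i hi
    rw [Finset.mem_Ico] at hi
    refine ⟨⟨n, hn, hi.1, by rw [E_succ]; omega⟩, ?_⟩
    have h1 : (Metric.ediam (CC n p)).toNNReal ≤ Real.toNNReal ((3/2) * (1/3) ^ (E (n + 1))) := by
      have := ENNReal.toNNReal_mono ENNReal.ofReal_ne_top (CC_diam n p)
      exact this
    refine lt_of_le_of_lt h1 ?_
    rw [← NNReal.coe_lt_coe, Real.coe_toNNReal _ (by positivity)]
    have h2 : (rr i : ℝ) = (1/2) * (1/3) ^ i := by simp [rr]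
    rw [h2]
    have h3 : E (n + 1) = 1 + (E (n + 1) - 1 - i) + i := by rw [E_succ]; omega
    rw [h3, pow_add, pow_add]
    have h4 : (0 : ℝ) < (1/3) ^ i := by positivity
    have h5 : ((1/3 : ℝ)) ^ (E (n + 1) - 1 - i) < 1 := by
      refine pow_lt_one₀ (by norm_num) (by norm_num) ?_
      rw [E_succ]; omega
    have h6 : (0 : ℝ) < (1/3) ^ (E (n + 1) - 1 - i) := by positivity
    nlinarith [mul_lt_mul_of_pos_right h5 h4]

theorem null_part (b : Set ℕ) (A : Set ℝ)
    (hA : ∀ z ∈ A, ∀ N, ∃ n ≥ N, n ∈ b ∧ z ∈ UU n) :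
    (OuterMeasure.mkMetric (fun r : ℝ≥0∞ => ((gz (ZZ b) r.toNNReal : ℝ≥0) : ℝ≥0∞)) :
      OuterMeasure ℝ) A = 0 := by
  classical
  unfold OuterMeasure.mkMetric OuterMeasure.mkMetric'
  simp only [OuterMeasure.iSup_apply, ENNReal.iSup_eq_zero]
  intro r hr
  set μ := OuterMeasure.mkMetric'.pre
    (fun s : Set ℝ => ((gz (ZZ b) (Metric.ediam s).toNNReal : ℝ≥0) : ℝ≥0∞)) r with hμ
  have hn0 : ∃ n0, ∀ n ≥ n0, ENNReal.ofReal ((3/2) * (1/3) ^ (E (n + 1))) ≤ r := by
    have h1 : Tendsto (fun n : ℕ => ENNReal.ofReal ((3/2) * (1/3 : ℝ) ^ (E (n + 1)))) atTop (𝓝 0) := by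
      have h2 : Tendsto (fun n : ℕ => (3/2) * (1/3 : ℝ) ^ (E (n + 1))) atTop (𝓝 0) := by
        have h3 : Tendsto (fun n : ℕ => (1/3 : ℝ) ^ n) atTop (𝓝 0) :=
          tendsto_pow_atTop_nhds_zero_of_lt_one (by norm_num) (by norm_num)
        have h4 : Tendsto (fun n : ℕ => E (n + 1)) atTop atTop := by
          refine tendsto_atTop_mono (fun n => ?_) tendsto_id
          have := E_gt (n + 1)
          simp only [id]; omega
        have h5 := (h3.comp h4).const_mul (3/2)
        simpa using h5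
      have := ENNReal.tendsto_ofReal h2
      simpa using this
    have h6 := (tendsto_order.1 h1).2 r hr
    obtain ⟨n0, hn0⟩ := eventually_atTop.1 h6
    exact ⟨n0, fun n hn => (hn0 n hn).le⟩
  obtain ⟨n0, hn0⟩ := hn0
  let s : ℕ → Set ℝ := fun n => if n ∈ b ∧ n0 ≤ n then UU n else ∅
  have hs : ∀ n, μ (s n) ≤ ENNReal.ofReal (2 * (1/2) ^ n) := by
    intro n
    by_cases hn : n ∈ b ∧ n0 ≤ n
    · simp only [s, if_pos hn]
      calc μ (UU n) ≤ μ (⋃ p : Fin (E n) → Bool, CC n p) := measure_mono (UU_sub n)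
        _ ≤ ∑' p : Fin (E n) → Bool, μ (CC n p) := measure_iUnion_le _
        _ ≤ ∑' _ : Fin (E n) → Bool, ((((1/2) ^ (2 * E n - 1) : ℝ≥0)) : ℝ≥0∞) := by
            refine ENNReal.tsum_le_tsum fun p => ?_
            refine le_trans (OuterMeasure.mkMetric'.pre_le ((CC_diam n p).trans (hn0 n hn.2))) ?_
            exact ENNReal.coe_le_coe.2 (gz_CC b n hn.1 p)
        _ = ENNReal.ofReal (2 ^ (E n) * (1/2) ^ (2 * E n - 1)) := by
            rw [tsum_fintype, Finset.sum_const, Finset.card_univ, Fintype.card_fun,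
              Fintype.card_bool, Fintype.card_fin, nsmul_eq_mul,
              ENNReal.ofReal_mul (by positivity)]
            congr 1
            · rw [ENNReal.ofReal_pow (by norm_num)]; simp
            · rw [ENNReal.ofReal_pow (by norm_num)]
              simp [ENNReal.inv_pow]
        _ ≤ ENNReal.ofReal (2 * (1/2) ^ n) := by
            refine ENNReal.ofReal_le_ofReal ?_
            have hE : 1 ≤ E n := Nat.one_le_pow _ _ (by norm_num)
            have e1 : 2 * E n - 1 = E n + (E n - 1) := by omega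
            rw [e1, pow_add, ← mul_assoc, ← mul_pow]
            norm_num
            have h7 : ((1/2 : ℝ)) ^ (E n - 1) ≤ (1/2) ^ (n) := by
              refine pow_le_pow_of_le_one (by norm_num) (by norm_num) ?_
              have := E_gt n; omega
            have h8 : (0 : ℝ) < (1/2) ^ n := by positivity
            linarith
    · simp only [s, if_neg hn]
      simp
  have hsum : ∑' n, μ (s n) ≠ ∞ := by
    refine ne_top_of_le_ne_top ?_ (ENNReal.tsum_le_tsum hs)
    have hsm : Summable (fun n : ℕ => 2 * (1/2 : ℝ) ^ n) :=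
      (summable_geometric_of_lt_one (by norm_num) (by norm_num)).mul_left 2
    exact hsm.tsum_ofReal_ne_top
  have hBC := measure_limsup_atTop_eq_zero (μ := μ) hsum
  refine le_antisymm (le_trans (measure_mono ?_) hBC.le) bot_le
  intro z hz
  rw [mem_limsup_iff_frequently_mem]
  rw [frequently_atTop]
  intro N
  obtain ⟨n, hnN, hnb, hzn⟩ := hA z hz (max N n0)
  refine ⟨n, le_trans (le_max_left _ _) hnN, ?_⟩
  simp only [s, if_pos (show n ∈ b ∧ n0 ≤ n from ⟨hnb, le_trans (le_max_right _ _) hnN⟩)]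
  exact hzn

/-- almost disjoint family -/
def fam (x : ℕ → Bool) : Set ℕ :=
  range fun n : ℕ => Encodable.encode ((List.range n).map x)

theorem code_inj (x : ℕ → Bool) :
    Function.Injective fun n : ℕ => Encodable.encode ((List.range n).map x) := by
  intro m n h
  have h1 := Encodable.encode_injective h
  have h2 := congrArg List.length h1
  simpa using h2

theorem fam_infinite (x : ℕ → Bool) : (fam x).Infinite := infinite_range_of_injective (code_inj x)

theorem fam_diff (x y : ℕ → Bool) (h : x ≠ y) : (fam x \ fam y).Infinite := by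
  obtain ⟨j, hj⟩ := Function.ne_iff.1 h
  have hinj : Function.Injective
      fun n : ℕ => Encodable.encode ((List.range (n + (j + 1))).map x) := by
    intro m n h
    have := code_inj x h
    omega
  refine (infinite_range_of_injective hinj).mono ?_
  rintro _ ⟨n, rfl⟩
  refine ⟨⟨n + (j + 1), rfl⟩, ?_⟩
  rintro ⟨m, hm⟩
  have h1 := Encodable.encode_injective hm
  have h2 : m = n + (j + 1) := by simpa using congrArg List.length h1
  subst h2
  have h3 := congrArg (fun l : List Bool => l[j]?) h1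
  have h4 : (List.range (n + (j + 1)))[j]? = some j := by
    rw [List.getElem?_range]; omega
  simp [List.getElem?_map, h4] at h3
  exact hj h3.symm

/-- the test sets -/
def AA (T : Set (ℕ → Bool)) : Set ℝ := {z | ∃ x ∈ T, z ∈ range (gg (ZZ (fam x)))}

theorem AA_pos (T : Set (ℕ → Bool)) (x : ℕ → Bool) (hx : x ∈ T) :
    0 < (OuterMeasure.mkMetric (fun r : ℝ≥0∞ => ((gz (ZZ (fam x)) r.toNNReal : ℝ≥0) : ℝ≥0∞)) :
      OuterMeasure ℝ) (AA T) :=
  pos_part _ _ fun _ hz => ⟨x, hx, hz⟩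

theorem AA_null (T : Set (ℕ → Bool)) (x : ℕ → Bool) (hx : x ∉ T) :
    (OuterMeasure.mkMetric (fun r : ℝ≥0∞ => ((gz (ZZ (fam x)) r.toNNReal : ℝ≥0) : ℝ≥0∞)) :
      OuterMeasure ℝ) (AA T) = 0 := by
  refine null_part _ _ ?_
  rintro z ⟨y, hy, u, rfl⟩ N
  have hne : x ≠ y := fun h => hx (h ▸ hy)
  obtain ⟨n, hn, hNn⟩ := (fam_diff x y hne).exists_gt N
  refine ⟨n, hNn.le, hn.1, _, ?_, rfl⟩
  intro i hi1 hi2
  have : i ∉ ZZ (fam y) := by
    rintro ⟨m, hm, h1, h2⟩
    have hmn : m = n := by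
      rcases lt_trichotomy m n with h | h | h
      · have := E_mono (show m + 1 ≤ n from h); omega
      · exact h
      · have := E_mono (show n + 1 ≤ m from h); omega
    exact hn.2 (hmn ▸ hm)
  simp [this]

theorem main :
    Cardinal.mk
      (Set.range (fun A : Set ℝ =>
        {f : ℝ≥0 → ℝ≥0 |
          Monotone f ∧ f 0 = 0 ∧ (∀ r : ℝ≥0, 0 < r → 0 < f r) ∧
          (∀ x : ℝ≥0, ContinuousWithinAt f (Set.Ici x) x) ∧
          0 < (MeasureTheory.OuterMeasure.mkMetric
                (fun r : ℝ≥0∞ => ((f r.toNNReal : ℝ≥0) : ℝ≥0∞)) :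
                MeasureTheory.OuterMeasure ℝ) A}))
      = 2 ^ Cardinal.continuum := by
  set I : Set ℝ → Set (ℝ≥0 → ℝ≥0) := (fun A : Set ℝ =>
        {f : ℝ≥0 → ℝ≥0 |
          Monotone f ∧ f 0 = 0 ∧ (∀ r : ℝ≥0, 0 < r → 0 < f r) ∧
          (∀ x : ℝ≥0, ContinuousWithinAt f (Set.Ici x) x) ∧
          0 < (MeasureTheory.OuterMeasure.mkMetric
                (fun r : ℝ≥0∞ => ((f r.toNNReal : ℝ≥0) : ℝ≥0∞)) :
                MeasureTheory.OuterMeasure ℝ) A}) with hI
  apply le_antisymm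
  · have h1 : Cardinal.mk (Set.range I) ≤ Cardinal.mk (Set ℝ) := Cardinal.mk_range_le
    rwa [Cardinal.mk_set, Cardinal.mk_real] at h1
  · have hinj : Function.Injective
        (fun T : Set (ℕ → Bool) => (⟨I (AA T), ⟨AA T, rfl⟩⟩ : Set.range I)) := by
      intro T T' h
      have h' : I (AA T) = I (AA T') := congrArg Subtype.val h
      have key : ∀ S : Set (ℕ → Bool), ∀ x, x ∈ S ↔ gz (ZZ (fam x)) ∈ I (AA S) := by
        intro S x
        constructor
        · intro hx
          exact ⟨gz_mono _, gz_zero _ (ZZ_infinite _ (fam_infinite x)), gz_pos _, gz_rcont _,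
            AA_pos S x hx⟩
        · intro hx
          by_contra hc
          have h3 := hx.2.2.2.2
          rw [AA_null S x hc] at h3
          exact lt_irrefl _ h3
      ext x
      rw [key T x, key T' x, h']
    have h2 := Cardinal.mk_le_of_injective hinj
    rw [Cardinal.mk_set] at h2
    have h3 : Cardinal.mk (ℕ → Bool) = Cardinal.continuum := by simp
    rwa [h3] at h2

end Pool.Agent.Gauge
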